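import Mathlib

namespace Pool.Agent.Results.MP_6152be_co.MixedProducts

open Set

universe u v

/-- A set is connected if it is nonempty and any two of its elements are joined by a finite
sequence of elements of the set in which consecutive elements are comparable. -/
def Conn {X : Type*} [PartialOrder X] (S : Set X) : Prop :=
  S.Nonempty ∧ ∀ x ∈ S, ∀ y ∈ S,
    Relation.ReflTransGen (fun a b => a ∈ S ∧ b ∈ S ∧ (a ≤ b ∨ b ≤ a)) x y

/-- The connected fixed point property. -/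
def CFPP (X : Type*) [PartialOrder X] : Prop :=
  ∀ f : X → X, Monotone f → Conn {x | f x = x}

/-- Every chain contained in `S` (also the empty one) has a supremum in `S`. -/
def ChainSup {X : Type*} [PartialOrder X] (S : Set X) : Prop :=
  ∀ C : Set X, C ⊆ S → IsChain (· ≤ ·) C →
    ∃ s ∈ S, (∀ x ∈ C, x ≤ s) ∧ ∀ t ∈ S, (∀ x ∈ C, x ≤ t) → s ≤ t

/-- Every chain contained in `S` (also the empty one) has an infimum in `S`. -/
def ChainInf {X : Type*} [PartialOrder X] (S : Set X) : Prop :=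
  ∀ C : Set X, C ⊆ S → IsChain (· ≤ ·) C →
    ∃ s ∈ S, (∀ x ∈ C, s ≤ x) ∧ ∀ t ∈ S, (∀ x ∈ C, t ≤ x) → t ≤ s

/-- Every nonempty chain contained in `S` has an infimum in `S`. -/
def ChainInfNE {X : Type*} [PartialOrder X] (S : Set X) : Prop :=
  ∀ C : Set X, C ⊆ S → C.Nonempty → IsChain (· ≤ ·) C →
    ∃ s ∈ S, (∀ x ∈ C, s ≤ x) ∧ ∀ t ∈ S, (∀ x ∈ C, t ≤ x) → t ≤ s

/-- Every nonempty chain contained in `S` has a supremum in `S`. -/
def ChainSupNE {X : Type*} [PartialOrder X] (S : Set X) : Prop :=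
  ∀ C : Set X, C ⊆ S → C.Nonempty → IsChain (· ≤ ·) C →
    ∃ s ∈ S, (∀ x ∈ C, x ≤ s) ∧ ∀ t ∈ S, (∀ x ∈ C, x ≤ t) → s ≤ t

/-- `CollapsesTo S T`: the subset `T` is reached from `S` in finitely many steps. An upward step
replaces `S` by the image of an order-preserving `r : S → S` with `x ≤ r x`, and is allowed if
every nonempty chain in `S` has an infimum in `S`; a downward step is the dual. -/
inductive CollapsesTo {X : Type v} [PartialOrder X] : Set X → Set X → Prop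
  | refl (S : Set X) : CollapsesTo S S
  | up (S T : Set X) (r : X → X) (hc : ChainInfNE S) (hS : ∀ x ∈ S, r x ∈ S)
      (hm : MonotoneOn r S) (hle : ∀ x ∈ S, x ≤ r x) (him : CollapsesTo (r '' S) T) :
      CollapsesTo S T
  | down (S T : Set X) (r : X → X) (hc : ChainSupNE S) (hS : ∀ x ∈ S, r x ∈ S)
      (hm : MonotoneOn r S) (hle : ∀ x ∈ S, r x ≤ x) (him : CollapsesTo (r '' S) T) :
      CollapsesTo S T

/-- relative form of the property -/
def CF {X : Type*} [PartialOrder X] (S : Set X) : Prop :=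
  ∀ f : X → X, (∀ x ∈ S, f x ∈ S) → MonotoneOn f S → Conn {x | x ∈ S ∧ f x = x}

theorem cfpp_iff {X : Type*} [PartialOrder X] : CFPP X ↔ CF (univ : Set X) := by
  constructor
  · intro h f _ hm
    have h1 := h f (fun a b hab => hm (mem_univ a) (mem_univ b) hab)
    simpa using h1
  · intro h f hm
    have h1 := h f (fun _ _ => mem_univ _) (fun a _ b _ hab => hm hab)
    simpa using h1

theorem reach_mono {X : Type*} [PartialOrder X] {S T : Set X} (hST : S ⊆ T) {x y : X}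
    (h : Relation.ReflTransGen (fun a b => a ∈ S ∧ b ∈ S ∧ (a ≤ b ∨ b ≤ a)) x y) :
    Relation.ReflTransGen (fun a b => a ∈ T ∧ b ∈ T ∧ (a ≤ b ∨ b ≤ a)) x y := by
  induction h with
  | refl => exact Relation.ReflTransGen.refl
  | tail _ hs ih => exact ih.tail ⟨hST hs.1, hST hs.2.1, hs.2.2⟩

theorem conn_of {X Y : Type*} [PartialOrder X] [PartialOrder Y] (S : Set X) (T : Set Y)
    (φ : Y → X) (hT : Conn T) (hφ : ∀ y ∈ T, φ y ∈ S)
    (hmono : ∀ y ∈ T, ∀ y' ∈ T, y ≤ y' → φ y ≤ φ y')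
    (hlink : ∀ x ∈ S, ∃ y ∈ T, φ y ≤ x) : Conn S := by
  obtain ⟨⟨t, ht⟩, hT2⟩ := hT
  refine ⟨⟨φ t, hφ t ht⟩, fun x hx x' hx' => ?_⟩
  obtain ⟨y, hy, hyx⟩ := hlink x hx
  obtain ⟨y', hy', hyx'⟩ := hlink x' hx'
  have h0 : ∀ z, Relation.ReflTransGen (fun a b => a ∈ T ∧ b ∈ T ∧ (a ≤ b ∨ b ≤ a)) y z →
      Relation.ReflTransGen (fun a b => a ∈ S ∧ b ∈ S ∧ (a ≤ b ∨ b ≤ a)) (φ y) (φ z) := by
    intro z hz
    induction hz with
    | refl => exact Relation.ReflTransGen.refl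
    | tail _ hs ih =>
      rename_i a b _
      obtain ⟨ha, hb, hab | hba⟩ := hs
      · exact ih.tail ⟨hφ a ha, hφ b hb, Or.inl (hmono a ha b hb hab)⟩
      · exact ih.tail ⟨hφ a ha, hφ b hb, Or.inr (hmono b hb a ha hba)⟩
  have h1 : Relation.ReflTransGen (fun a b => a ∈ S ∧ b ∈ S ∧ (a ≤ b ∨ b ≤ a)) (φ y) (φ y') :=
    h0 y' (hT2 y hy y' hy')
  exact (Relation.ReflTransGen.head ⟨hx, hφ y hy, Or.inr hyx⟩ h1).tail
    ⟨hφ y' hy', hx', Or.inl hyx'⟩

theorem conn_union {X Y : Type*} [PartialOrder X] [PartialOrder Y] (S : Set X) (T : Set Y)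
    (K : Y → Set X) (hT : Conn T) (hK : ∀ y ∈ T, Conn (K y)) (hKS : ∀ y ∈ T, K y ⊆ S)
    (hmono : ∀ y ∈ T, ∀ y' ∈ T, y ≤ y' → K y ⊆ K y')
    (hcov : ∀ x ∈ S, ∃ y ∈ T, x ∈ K y) : Conn S := by
  obtain ⟨⟨t, ht⟩, hT2⟩ := hT
  obtain ⟨w, hw⟩ := (hK t ht).1
  refine ⟨⟨w, hKS t ht hw⟩, fun x hx x' hx' => ?_⟩
  obtain ⟨y, hy, hyx⟩ := hcov x hx
  obtain ⟨y', hy', hyx'⟩ := hcov x' hx'
  have main : ∀ z, Relation.ReflTransGen (fun a b => a ∈ T ∧ b ∈ T ∧ (a ≤ b ∨ b ≤ a)) y z →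
      ∀ b ∈ K z, Relation.ReflTransGen (fun a b => a ∈ S ∧ b ∈ S ∧ (a ≤ b ∨ b ≤ a)) x b := by
    intro z hz
    induction hz with
    | refl =>
      intro b hb
      exact reach_mono (hKS y hy) ((hK y hy).2 x hyx b hb)
    | tail _ hstep ih =>
      rename_i z1 z2 _
      intro b hb
      obtain ⟨h1, h2, h12 | h21⟩ := hstep
      · obtain ⟨c, hc⟩ := (hK z1 h1).1
        have hc2 : c ∈ K z2 := hmono z1 h1 z2 h2 h12 hc
        exact (ih c hc).trans (reach_mono (hKS z2 h2) ((hK z2 h2).2 c hc2 b hb))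
      · exact ih b (hmono z2 h2 z1 h1 h21 hb)
  exact main y' (hT2 y hy y' hy') x' hyx'

theorem cf_Iic {X : Type*} [PartialOrder X] {A : Set X} (hA : CF A) {p : X} (hp : p ∈ A) :
    CF (A ∩ Iic p) := by
  classical
  intro f hf hm
  have h := hA (fun x => if x ≤ p then f x else p) ?_ ?_
  · have heq : {x | x ∈ A ∧ (if x ≤ p then f x else p) = x} = {x | x ∈ A ∩ Iic p ∧ f x = x} := by
      ext x
      simp only [mem_ofPred_eq, mem_inter_iff, mem_Iic]
      constructor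
      · rintro ⟨hxA, hx⟩
        by_cases hxp : x ≤ p
        · rw [if_pos hxp] at hx
          exact ⟨⟨hxA, hxp⟩, hx⟩
        · rw [if_neg hxp] at hx
          exact absurd (le_of_eq hx.symm) hxp
      · rintro ⟨⟨hxA, hxp⟩, hx⟩
        exact ⟨hxA, by rw [if_pos hxp]; exact hx⟩
    rw [← heq]
    exact h
  · intro x hx
    by_cases hxp : x ≤ p
    · simp only [if_pos hxp]
      exact (hf x ⟨hx, hxp⟩).1
    · simp only [if_neg hxp]
      exact hp
  · intro x hx y hy hxy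
    by_cases hyp : y ≤ p
    · have hxp : x ≤ p := hxy.trans hyp
      simp only [if_pos hyp, if_pos hxp]
      exact hm ⟨hx, hxp⟩ ⟨hy, hyp⟩ hxy
    · by_cases hxp : x ≤ p
      · simp only [if_neg hyp, if_pos hxp]
        exact (hf x ⟨hx, hxp⟩).2
      · simp only [if_neg hyp, if_neg hxp]
        exact le_rfl

theorem cf_Ici {X : Type*} [PartialOrder X] {A : Set X} (hA : CF A) {p : X} (hp : p ∈ A) :
    CF (A ∩ Ici p) := by
  classical
  intro f hf hm
  have h := hA (fun x => if p ≤ x then f x else p) ?_ ?_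
  · have heq : {x | x ∈ A ∧ (if p ≤ x then f x else p) = x} = {x | x ∈ A ∩ Ici p ∧ f x = x} := by
      ext x
      simp only [mem_ofPred_eq, mem_inter_iff, mem_Ici]
      constructor
      · rintro ⟨hxA, hx⟩
        by_cases hxp : p ≤ x
        · rw [if_pos hxp] at hx
          exact ⟨⟨hxA, hxp⟩, hx⟩
        · rw [if_neg hxp] at hx
          exact absurd (le_of_eq hx) hxp
      · rintro ⟨⟨hxA, hxp⟩, hx⟩
        exact ⟨hxA, by rw [if_pos hxp]; exact hx⟩
    rw [← heq]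
    exact h
  · intro x hx
    by_cases hxp : p ≤ x
    · simp only [if_pos hxp]
      exact (hf x ⟨hx, hxp⟩).1
    · simp only [if_neg hxp]
      exact hp
  · intro x hx y hy hxy
    by_cases hxp : p ≤ x
    · have hyp : p ≤ y := hxp.trans hxy
      simp only [if_pos hyp, if_pos hxp]
      exact hm ⟨hx, hxp⟩ ⟨hy, hyp⟩ hxy
    · by_cases hyp : p ≤ y
      · simp only [if_pos hyp, if_neg hxp]
        exact (hf y ⟨hy, hyp⟩).2
      · simp only [if_neg hyp, if_neg hxp]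
        exact le_rfl

/-- `S` is good relative to `P` -/
def Mult (P : Type*) [PartialOrder P] {Q : Type*} [PartialOrder Q] (S : Set Q) : Prop :=
  ∀ A : Set P, CF A → CF (A ×ˢ S)

theorem least_fixed {Q : Type*} [PartialOrder Q] {S : Set Q} (h : ChainSup S) (f : Q → Q)
    (hf : ∀ x ∈ S, f x ∈ S) (hm : MonotoneOn f S) :
    ∃ s ∈ S, f s = s ∧ ∀ t ∈ S, f t ≤ t → s ≤ t := by
  let W : Set Q := {x | x ∈ S ∧ x ≤ f x ∧ ∀ t ∈ S, f t ≤ t → x ≤ t}
  have hz : ∃ m, Maximal (· ∈ W) m := by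
    refine zorn_le₀ W ?_
    intro C hCW hC
    obtain ⟨s, hsS, hub, hlub⟩ := h C (fun x hx => (hCW hx).1) hC
    refine ⟨s, ⟨hsS, ?_, ?_⟩, fun x hx => hub x hx⟩
    · apply hlub (f s) (hf s hsS)
      intro x hx
      exact (hCW hx).2.1.trans (hm (hCW hx).1 hsS (hub x hx))
    · intro t ht hft
      exact hlub t ht (fun x hx => (hCW hx).2.2 t ht hft)
  obtain ⟨m, hmW, hmax⟩ := hz
  have hfm : f m ∈ W := by
    refine ⟨hf m hmW.1, hm hmW.1 (hf m hmW.1) hmW.2.1, fun t ht hft => ?_⟩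
    exact (hm hmW.1 ht (hmW.2.2 t ht hft)).trans hft
  have h2 : f m ≤ m := hmax hfm hmW.2.1
  exact ⟨m, hmW.1, le_antisymm h2 hmW.2.1, hmW.2.2⟩

theorem mult_bot (P : Type*) [PartialOrder P] {Q : Type*} [PartialOrder Q] {S : Set Q}
    (h : ChainSup S) : Mult P S := by
  intro A hA F hF hm
  have : Nonempty Q := by
    obtain ⟨s, _, _⟩ := h ∅ (empty_subset S) (by simp [IsChain])
    exact ⟨s⟩
  have key : ∀ p ∈ A, ∃ s, s ∈ S ∧ (F (p, s)).2 = s ∧ ∀ t ∈ S, (F (p, t)).2 ≤ t → s ≤ t := by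
    intro p hp
    obtain ⟨s, hs, h1, h2⟩ := least_fixed h (fun s => (F (p, s)).2)
      (fun s hs => (hF (p, s) ⟨hp, hs⟩).2)
      (fun a ha b hb hab => (hm (a := (p, a)) ⟨hp, ha⟩ (b := (p, b)) ⟨hp, hb⟩
        (Prod.mk_le_mk.2 ⟨le_rfl, hab⟩)).2)
    exact ⟨s, hs, h1, h2⟩
  choose! l hlS hlfix hlleast using key
  have hlmono : ∀ p ∈ A, ∀ p' ∈ A, p ≤ p' → l p ≤ l p' := by
    intro p hp p' hp' hpp
    apply hlleast p hp (l p') (hlS p' hp')
    calc (F (p, l p')).2 ≤ (F (p', l p')).2 :=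
          (hm (a := (p, l p')) ⟨hp, hlS p' hp'⟩ (b := (p', l p')) ⟨hp', hlS p' hp'⟩
            (Prod.mk_le_mk.2 ⟨hpp, le_rfl⟩)).2
      _ = l p' := hlfix p' hp'
  have hgmap : ∀ p ∈ A, (F (p, l p)).1 ∈ A := fun p hp => (hF (p, l p) ⟨hp, hlS p hp⟩).1
  have hgmono : MonotoneOn (fun p => (F (p, l p)).1) A := by
    intro a ha b hb hab
    exact (hm (a := (a, l a)) ⟨ha, hlS a ha⟩ (b := (b, l b)) ⟨hb, hlS b hb⟩
      (Prod.mk_le_mk.2 ⟨hab, hlmono a ha b hb hab⟩)).1
  have hG := hA (fun p => (F (p, l p)).1) hgmap hgmono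
  refine conn_of _ {p | p ∈ A ∧ (F (p, l p)).1 = p} (fun p => (p, l p)) hG ?_ ?_ ?_
  · rintro p ⟨hpA, hp⟩
    refine ⟨⟨hpA, hlS p hpA⟩, ?_⟩
    exact Prod.ext hp (hlfix p hpA)
  · rintro p ⟨hpA, _⟩ p' ⟨hpA', _⟩ hpp
    exact Prod.mk_le_mk.2 ⟨hpp, hlmono p hpA p' hpA' hpp⟩
  · rintro ⟨x, y⟩ ⟨⟨hx, hy⟩, hxy⟩
    simp only at hx hy
    have hlx : l x ≤ y := hlleast x hx y hy (by rw [hxy])
    have h1 := cf_Iic hA hx (fun p => (F (p, l p)).1) ?_ ?_
    · obtain ⟨⟨p, hp, hp2⟩, _⟩ := h1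
      refine ⟨p, ⟨hp.1, hp2⟩, ?_⟩
      exact Prod.mk_le_mk.2 ⟨hp.2, (hlmono p hp.1 x hx hp.2).trans hlx⟩
    · rintro p ⟨hp, hpx⟩
      refine ⟨hgmap p hp, ?_⟩
      have h2 : F (p, l p) ≤ F (x, y) :=
        hm (a := (p, l p)) ⟨hp, hlS p hp⟩ (b := (x, y)) ⟨hx, hy⟩
          (Prod.mk_le_mk.2 ⟨hpx, (hlmono p hp x hx hpx).trans hlx⟩)
      rw [hxy] at h2
      exact h2.1
    · exact hgmono.mono inter_subset_left

theorem cf_up {P : Type*} [PartialOrder P] {Q : Type*} [PartialOrder Q] {S : Set Q}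
    (r : Q → Q) (hS : ∀ x ∈ S, r x ∈ S) (hrm : MonotoneOn r S)
    (hle : ∀ x ∈ S, x ≤ r x)
    (hloc : ∀ s ∈ S, Mult P (S ∩ Iic s)) {A : Set P} (hA : CF A)
    (hR : CF (A ×ˢ (r '' S))) : CF (A ×ˢ S) := by
  intro F hF hm
  have hTS : r '' S ⊆ S := by
    rintro _ ⟨x, hx, rfl⟩
    exact hS x hx
  have hRS : A ×ˢ (r '' S) ⊆ A ×ˢ S := prod_mono le_rfl hTS
  have hhmap : ∀ z ∈ A ×ˢ (r '' S), ((F z).1, r (F z).2) ∈ A ×ˢ (r '' S) := by
    intro z hz
    have h1 := hF z (hRS hz)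
    exact ⟨h1.1, ⟨(F z).2, h1.2, rfl⟩⟩
  have hhmono : MonotoneOn (fun z => ((F z).1, r (F z).2)) (A ×ˢ (r '' S)) := by
    intro a ha b hb hab
    have h1 := hm (hRS ha) (hRS hb) hab
    exact Prod.mk_le_mk.2 ⟨h1.1, hrm (hF a (hRS ha)).2 (hF b (hRS hb)).2 h1.2⟩
  have hH := hR _ hhmap hhmono
  refine conn_union _ _ (fun z => {w | w ∈ A ×ˢ S ∧ F w = w ∧ w ≤ z}) hH ?_ ?_ ?_ ?_
  · rintro z ⟨hz, hzfix⟩
    have hzS := hRS hz
    have hv := hF z hzS
    have hvz : F z ≤ z := by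
      have h1 : (F z).1 = z.1 := by
        have h5 := congrArg Prod.fst hzfix
        exact h5
      have h2 : r (F z).2 = z.2 := by
        have h5 := congrArg Prod.snd hzfix
        exact h5
      exact ⟨le_of_eq h1, (hle _ hv.2).trans (le_of_eq h2)⟩
    have h3 := hloc (F z).2 hv.2 (A ∩ Iic (F z).1) (cf_Iic hA hv.1) F ?_ ?_
    · have heq : {w | w ∈ (A ∩ Iic (F z).1) ×ˢ (S ∩ Iic (F z).2) ∧ F w = w} =
          {w | w ∈ A ×ˢ S ∧ F w = w ∧ w ≤ z} := by
        ext w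
        constructor
        · rintro ⟨⟨⟨h4, h5⟩, ⟨h6, h7⟩⟩, h8⟩
          have h9 : w ≤ F z := ⟨h5, h7⟩
          exact ⟨⟨h4, h6⟩, h8, h9.trans hvz⟩
        · rintro ⟨h4, h5, h6⟩
          have h7 : F w ≤ F z := hm h4 hzS h6
          rw [h5] at h7
          exact ⟨⟨⟨h4.1, h7.1⟩, ⟨h4.2, h7.2⟩⟩, h5⟩
      rw [← heq]
      exact h3
    · rintro w ⟨⟨h4, h5⟩, ⟨h6, h7⟩⟩
      have h9 : w ≤ F z := ⟨h5, h7⟩
      have h10 : F w ≤ F z := hm ⟨h4, h6⟩ hzS (h9.trans hvz)
      have h11 := hF w ⟨h4, h6⟩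
      exact ⟨⟨h11.1, h10.1⟩, ⟨h11.2, h10.2⟩⟩
    · refine hm.mono ?_
      rintro w ⟨⟨h4, _⟩, ⟨h6, _⟩⟩
      exact ⟨h4, h6⟩
  · rintro z _ w ⟨h1, h2, _⟩
    exact ⟨h1, h2⟩
  · rintro z _ z' _ hzz w ⟨h1, h2, h3⟩
    exact ⟨h1, h2, h3.trans hzz⟩
  · rintro y ⟨hy, hyfix⟩
    have hu : (y.1, r y.2) ∈ A ×ˢ (r '' S) := ⟨hy.1, ⟨y.2, hy.2, rfl⟩⟩
    have hyu : y ≤ (y.1, r y.2) := ⟨le_rfl, hle y.2 hy.2⟩
    have h1 := cf_Ici hR hu (fun z => ((F z).1, r (F z).2)) ?_ ?_
    · obtain ⟨⟨z, hz, hzfix⟩, _⟩ := h1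
      exact ⟨z, ⟨hz.1, hzfix⟩, ⟨hy, hyfix, hyu.trans hz.2⟩⟩
    · rintro z ⟨hz, hzu⟩
      refine ⟨hhmap z hz, ?_⟩
      have h2 : F y ≤ F z := hm hy (hRS hz) (hyu.trans hzu)
      rw [hyfix] at h2
      exact Prod.mk_le_mk.2 ⟨h2.1, hrm hy.2 (hF z (hRS hz)).2 h2.2⟩
    · exact hhmono.mono inter_subset_left

theorem mult_retract (P : Type*) [PartialOrder P] {Q : Type*} [PartialOrder Q] {S T : Set Q}
    (r : Q → Q) (hTS : T ⊆ S) (hr : ∀ x ∈ S, r x ∈ T) (hrm : MonotoneOn r S)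
    (hid : ∀ x ∈ T, r x = x) (hS : Mult P S) : Mult P T := by
  intro A hA F hF hm
  have h := hS A hA (fun z => F (z.1, r z.2)) ?_ ?_
  · have heq : {z | z ∈ A ×ˢ S ∧ F (z.1, r z.2) = z} = {z | z ∈ A ×ˢ T ∧ F z = z} := by
      ext z
      constructor
      · rintro ⟨h1, h2⟩
        have h3 : F (z.1, r z.2) ∈ A ×ˢ T := hF _ ⟨h1.1, hr _ h1.2⟩
        rw [h2] at h3
        refine ⟨h3, ?_⟩
        have h4 : (z.1, r z.2) = z := Prod.ext rfl (hid _ h3.2)
        rw [h4] at h2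
        exact h2
      · rintro ⟨h1, h2⟩
        refine ⟨⟨h1.1, hTS h1.2⟩, ?_⟩
        have h4 : (z.1, r z.2) = z := Prod.ext rfl (hid _ h1.2)
        rw [h4]
        exact h2
    rw [← heq]
    exact h
  · intro z hz
    have h3 : F (z.1, r z.2) ∈ A ×ˢ T := hF _ ⟨hz.1, hr _ hz.2⟩
    exact ⟨h3.1, hTS h3.2⟩
  · intro a ha b hb hab
    exact hm (a := (a.1, r a.2)) ⟨ha.1, hr _ ha.2⟩ (b := (b.1, r b.2)) ⟨hb.1, hr _ hb.2⟩
      (Prod.mk_le_mk.2 ⟨hab.1, hrm ha.2 hb.2 hab.2⟩)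

theorem conn_dual {X : Type*} [PartialOrder X] (S : Set X)
    (h : Conn (X := Xᵒᵈ) (OrderDual.ofDual ⁻¹' S)) : Conn S := by
  obtain ⟨⟨w, hw⟩, h2⟩ := h
  refine ⟨⟨OrderDual.ofDual w, hw⟩, fun x hx y hy => ?_⟩
  have h3 := h2 (OrderDual.toDual x) hx (OrderDual.toDual y) hy
  have h4 : ∀ z : Xᵒᵈ, Relation.ReflTransGen
      (fun a b : Xᵒᵈ => a ∈ OrderDual.ofDual ⁻¹' S ∧ b ∈ OrderDual.ofDual ⁻¹' S ∧ (a ≤ b ∨ b ≤ a))
      (OrderDual.toDual x) z →
      Relation.ReflTransGen (fun a b => a ∈ S ∧ b ∈ S ∧ (a ≤ b ∨ b ≤ a)) x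
        (OrderDual.ofDual z) := by
    intro z hz
    induction hz with
    | refl => exact Relation.ReflTransGen.refl
    | tail _ hs ih =>
      refine ih.tail ⟨hs.1, hs.2.1, ?_⟩
      rcases hs.2.2 with h | h
      · exact Or.inr h
      · exact Or.inl h
  exact h4 _ h3

theorem cf_dual {X : Type*} [PartialOrder X] {S : Set X} (h : CF S) :
    CF (X := Xᵒᵈ) (OrderDual.ofDual ⁻¹' S) := by
  intro f hf hm
  apply conn_dual (X := Xᵒᵈ)
  have h1 := h (fun x => OrderDual.ofDual (f (OrderDual.toDual x))) (fun x hx => hf _ hx)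
    (fun a ha b hb hab => hm (a := OrderDual.toDual b) hb (b := OrderDual.toDual a) ha hab)
  exact h1

theorem cf_of_dual {X : Type*} [PartialOrder X] {S : Set X}
    (h : CF (X := Xᵒᵈ) (OrderDual.ofDual ⁻¹' S)) : CF S := by
  intro f hf hm
  apply conn_dual
  have h1 := h (fun x => OrderDual.toDual (f (OrderDual.ofDual x))) (fun x hx => hf _ hx)
    (fun a ha b hb hab => hm (a := OrderDual.ofDual b) hb (b := OrderDual.ofDual a) ha hab)
  exact h1

theorem mult_of_dual {P : Type*} [PartialOrder P] {Q : Type*} [PartialOrder Q] {S : Set Q}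
    (h : Mult Pᵒᵈ (Q := Qᵒᵈ) (OrderDual.ofDual ⁻¹' S)) : Mult P S := by
  intro A hA
  apply cf_of_dual
  exact h (OrderDual.ofDual ⁻¹' A) (cf_dual hA)

theorem mult_dual {P : Type*} [PartialOrder P] {Q : Type*} [PartialOrder Q] {S : Set Q}
    (h : Mult P S) : Mult Pᵒᵈ (Q := Qᵒᵈ) (OrderDual.ofDual ⁻¹' S) := by
  intro A hA
  have h1 : CF (X := P) (OrderDual.toDual ⁻¹' A) := cf_of_dual hA
  exact cf_dual (h (OrderDual.toDual ⁻¹' A) h1)

theorem mult_top (P : Type*) [PartialOrder P] {Q : Type*} [PartialOrder Q] {S : Set Q}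
    (h : ChainInf S) : Mult P S := by
  apply mult_of_dual
  apply mult_bot
  intro C hC hch
  obtain ⟨s, hs, h1, h2⟩ := h (OrderDual.toDual ⁻¹' C) (fun x hx => hC hx)
    (fun a ha b hb hab => (hch ha hb hab).symm)
  exact ⟨OrderDual.toDual s, hs, fun x hx => h1 _ hx, fun t ht hCt => h2 _ ht hCt⟩

theorem chainInf_Iic {X : Type*} [PartialOrder X] {S : Set X} (h : ChainInfNE S) {s : X}
    (hs : s ∈ S) : ChainInf (S ∩ Iic s) := by
  intro C hC hch
  rcases C.eq_empty_or_nonempty with rfl | hne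
  · exact ⟨s, ⟨hs, le_rfl⟩, by simp, fun t ht _ => ht.2⟩
  · obtain ⟨t, ht, h1, h2⟩ := h C (fun x hx => (hC hx).1) hne hch
    obtain ⟨c, hc⟩ := hne
    exact ⟨t, ⟨ht, (h1 c hc).trans (hC hc).2⟩, h1, fun t' ht' h3 => h2 t' ht'.1 h3⟩

theorem chainSup_Ici {X : Type*} [PartialOrder X] {S : Set X} (h : ChainSupNE S) {s : X}
    (hs : s ∈ S) : ChainSup (S ∩ Ici s) := by
  intro C hC hch
  rcases C.eq_empty_or_nonempty with rfl | hne
  · exact ⟨s, ⟨hs, le_rfl⟩, by simp, fun t ht _ => ht.2⟩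
  · obtain ⟨t, ht, h1, h2⟩ := h C (fun x hx => (hC hx).1) hne hch
    obtain ⟨c, hc⟩ := hne
    exact ⟨t, ⟨ht, (hC hc).2.trans (h1 c hc)⟩, h1, fun t' ht' h3 => h2 t' ht'.1 h3⟩

theorem cf_down {P : Type*} [PartialOrder P] {Q : Type*} [PartialOrder Q] {S : Set Q}
    (r : Q → Q) (hS : ∀ x ∈ S, r x ∈ S) (hrm : MonotoneOn r S)
    (hle : ∀ x ∈ S, r x ≤ x)
    (hloc : ∀ s ∈ S, Mult P (S ∩ Ici s)) {A : Set P} (hA : CF A)
    (hR : CF (A ×ˢ (r '' S))) : CF (A ×ˢ S) := by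
  apply cf_of_dual
  have h := cf_up (P := Pᵒᵈ) (Q := Qᵒᵈ) (S := OrderDual.ofDual ⁻¹' S)
    (fun x => OrderDual.toDual (r (OrderDual.ofDual x))) (fun x hx => hS _ hx)
    (fun a ha b hb hab => hrm (a := OrderDual.ofDual b) hb (b := OrderDual.ofDual a) ha hab)
    (fun x hx => hle _ hx) (fun s hs => mult_dual (hloc (OrderDual.ofDual s) hs))
    (A := OrderDual.ofDual ⁻¹' A) (cf_dual hA) (cf_dual hR)
  exact h

theorem cf_of_collapses {P : Type*} [PartialOrder P] {Q : Type*} [PartialOrder Q] {S T : Set Q}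
    (h : CollapsesTo S T) {A : Set P} (hA : CF A) (hT : CF (A ×ˢ T)) : CF (A ×ˢ S) := by
  induction h with
  | refl S => exact hT
  | up S T r hc hS hm hle _ ih =>
    exact cf_up r hS hm hle (fun s hs => mult_top P (chainInf_Iic hc hs)) hA (ih hT)
  | down S T r hc hS hm hle _ ih =>
    exact cf_down r hS hm hle (fun s hs => mult_bot P (chainSup_Ici hc hs)) hA (ih hT)

theorem cf_of_cfpp_sub {P : Type*} [PartialOrder P] {Q : Type*} [PartialOrder Q] {T : Set Q}
    (h : CFPP (P × T)) : CF ((univ : Set P) ×ˢ T) := by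
  intro F hF hm
  have h1 := h (fun z => ((F (z.1, z.2)).1, ⟨(F (z.1, z.2)).2, (hF _ ⟨mem_univ _, z.2.2⟩).2⟩)) ?_
  · refine conn_of _ _ (fun z : P × T => (z.1, (z.2 : Q))) h1 ?_ ?_ ?_
    · intro z hz
      refine ⟨⟨mem_univ _, z.2.2⟩, ?_⟩
      have h2 := congrArg Prod.fst hz
      have h3 := congrArg (fun w => ((Prod.snd w : T) : Q)) hz
      exact Prod.ext h2 h3
    · intro z _ w _ hzw
      exact Prod.mk_le_mk.2 ⟨hzw.1, hzw.2⟩
    · rintro ⟨x, y⟩ ⟨⟨_, hy⟩, hxy⟩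
      refine ⟨(x, ⟨y, hy⟩), ?_, le_rfl⟩
      have h2 : (F (x, y)).1 = x := congrArg Prod.fst hxy
      have h3 : (F (x, y)).2 = y := congrArg Prod.snd hxy
      exact Prod.ext h2 (Subtype.ext h3)
  · intro a b hab
    have h4 := hm (a := (a.1, (a.2 : Q))) ⟨mem_univ _, a.2.2⟩ (b := (b.1, (b.2 : Q)))
      ⟨mem_univ _, b.2.2⟩ (Prod.mk_le_mk.2 ⟨hab.1, hab.2⟩)
    exact Prod.mk_le_mk.2 ⟨h4.1, h4.2⟩

/-- `x` has a unique upper cover or a unique lower cover (for finite ordered sets): the elements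
above `x` have a least one, or the elements below `x` have a greatest one. -/
def Irred {X : Type*} [PartialOrder X] (x : X) : Prop :=
  (∃ y, x < y ∧ ∀ z, x < z → y ≤ z) ∨ (∃ y, y < x ∧ ∀ z, z < x → z ≤ y)

theorem main (P : Type u) (Q : Type v) [PartialOrder P] [PartialOrder Q] (T : Set Q)
    (hP : CFPP P) (hQ : CollapsesTo (univ : Set Q) T)
    (hT : ChainSup T ∨ ChainInf T ∨ CFPP (P × T)) : CFPP (P × Q) := by
  rw [cfpp_iff] at hP ⊢
  have h1 : CF ((univ : Set P) ×ˢ T) := by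
    rcases hT with h | h | h
    · exact mult_bot P h univ hP
    · exact mult_top P h univ hP
    · exact cf_of_cfpp_sub h
  have h := cf_of_collapses hQ hP h1
  rwa [univ_prod_univ] at h

theorem finite_chainInfNE {X : Type*} [PartialOrder X] [Finite X] (S : Set X) :
    ChainInfNE S := by
  intro C hC hne hch
  obtain ⟨m, hm, hmin⟩ := (toFinite C).exists_minimal hne
  refine ⟨m, hC hm, fun x hx => ?_, fun t _ h => h m hm⟩
  rcases eq_or_ne m x with h | h
  · exact le_of_eq h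
  · rcases hch hm hx h with h1 | h1
    · exact h1
    · exact hmin hx h1

theorem finite_chainSupNE {X : Type*} [PartialOrder X] [Finite X] (S : Set X) :
    ChainSupNE S := by
  intro C hC hne hch
  obtain ⟨m, hm, hmax⟩ := (toFinite C).exists_maximal hne
  refine ⟨m, hC hm, fun x hx => ?_, fun t _ h => h m hm⟩
  rcases eq_or_ne m x with h | h
  · exact le_of_eq h.symm
  · rcases hch hm hx h with h1 | h1
    · exact hmax hx h1
    · exact h1

theorem cf_retract {X : Type*} [PartialOrder X] {S T : Set X}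
    (r : X → X) (hTS : T ⊆ S) (hr : ∀ x ∈ S, r x ∈ T) (hrm : MonotoneOn r S)
    (hid : ∀ x ∈ T, r x = x) (hS : CF S) : CF T := by
  intro f hf hm
  have h := hS (fun x => f (r x)) (fun x hx => hTS (hf _ (hr x hx)))
    (fun a ha b hb hab => hm (hr a ha) (hr b hb) (hrm ha hb hab))
  have heq : {x | x ∈ S ∧ f (r x) = x} = {x | x ∈ T ∧ f x = x} := by
    ext x
    constructor
    · rintro ⟨h1, h2⟩
      have h3 : x ∈ T := by
        rw [← h2]
        exact hf _ (hr x h1)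
      refine ⟨h3, ?_⟩
      rw [hid x h3] at h2
      exact h2
    · rintro ⟨h1, h2⟩
      exact ⟨hTS h1, by rw [hid x h1]; exact h2⟩
  rw [← heq]
  exact h

/-- irreducibility relative to a subset -/
def IrredIn {X : Type*} [PartialOrder X] (S : Set X) (x : X) : Prop :=
  (∃ y ∈ S, x < y ∧ ∀ z ∈ S, x < z → y ≤ z) ∨ (∃ y ∈ S, y < x ∧ ∀ z ∈ S, z < x → z ≤ y)

theorem exists_core {X : Type v} [PartialOrder X] [Finite X] :
    ∀ n : ℕ, ∀ S : Set X, S.ncard = n →
      ∃ T : Set X, CollapsesTo S T ∧ (CF S → CF T) ∧ ∀ x ∈ T, ¬ IrredIn T x := by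
  classical
  intro n
  induction n using Nat.strong_induction_on with
  | _ n ih =>
    intro S hn
    by_cases hex : ∃ x ∈ S, IrredIn S x
    · obtain ⟨x, hx, hirr⟩ := hex
      have hlt : (S \ {x}).ncard < n := by
        rw [← hn]
        exact ncard_sdiff_singleton_lt_of_mem hx (toFinite S)
      obtain ⟨T, hT1, hT2, hT3⟩ := ih _ hlt (S \ {x}) rfl
      rcases hirr with ⟨y, hy, hxy, hleast⟩ | ⟨y, hy, hxy, hgreat⟩
      · have hr : ∀ z ∈ S, (if z = x then y else z) ∈ S \ {x} := by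
          intro z hz
          by_cases h : z = x
          · rw [if_pos h]
            exact ⟨hy, fun h' => absurd h' (ne_of_gt hxy)⟩
          · rw [if_neg h]
            exact ⟨hz, h⟩
        have hm : MonotoneOn (fun z => if z = x then y else z) S := by
          intro a ha b hb hab
          by_cases h1 : a = x
          · by_cases h2 : b = x
            · simp only [if_pos h1, if_pos h2]
              exact le_rfl
            · simp only [if_pos h1, if_neg h2]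
              rw [h1] at hab
              exact hleast b hb (lt_of_le_of_ne hab (Ne.symm h2))
          · by_cases h2 : b = x
            · simp only [if_neg h1, if_pos h2]
              rw [h2] at hab
              exact hab.trans hxy.le
            · simp only [if_neg h1, if_neg h2]
              exact hab
        have hid : ∀ z ∈ S \ {x}, (if z = x then y else z) = z := by
          intro z hz
          exact if_neg hz.2
        have him : (fun z => if z = x then y else z) '' S = S \ {x} := by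
          ext z
          constructor
          · rintro ⟨w, hw, rfl⟩
            exact hr w hw
          · intro hz
            exact ⟨z, hz.1, hid z hz⟩
        refine ⟨T, CollapsesTo.up S T (fun z => if z = x then y else z) (finite_chainInfNE S)
          (fun z hz => (hr z hz).1) hm ?_ ?_, ?_, hT3⟩
        · intro z _
          by_cases h : z = x
          · simp only [if_pos h]
            rw [h]
            exact hxy.le
          · simp only [if_neg h]
            exact le_rfl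
        · rw [him]
          exact hT1
        · intro h
          exact hT2 (cf_retract _ sdiff_subset hr hm hid h)
      · have hr : ∀ z ∈ S, (if z = x then y else z) ∈ S \ {x} := by
          intro z hz
          by_cases h : z = x
          · rw [if_pos h]
            exact ⟨hy, fun h' => absurd h' (ne_of_lt hxy)⟩
          · rw [if_neg h]
            exact ⟨hz, h⟩
        have hm : MonotoneOn (fun z => if z = x then y else z) S := by
          intro a ha b hb hab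
          by_cases h1 : a = x
          · by_cases h2 : b = x
            · simp only [if_pos h1, if_pos h2]
              exact le_rfl
            · simp only [if_pos h1, if_neg h2]
              rw [h1] at hab
              exact hxy.le.trans hab
          · by_cases h2 : b = x
            · simp only [if_neg h1, if_pos h2]
              rw [h2] at hab
              exact hgreat a ha (lt_of_le_of_ne hab h1)
            · simp only [if_neg h1, if_neg h2]
              exact hab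
        have hid : ∀ z ∈ S \ {x}, (if z = x then y else z) = z := by
          intro z hz
          exact if_neg hz.2
        have him : (fun z => if z = x then y else z) '' S = S \ {x} := by
          ext z
          constructor
          · rintro ⟨w, hw, rfl⟩
            exact hr w hw
          · intro hz
            exact ⟨z, hz.1, hid z hz⟩
        refine ⟨T, CollapsesTo.down S T (fun z => if z = x then y else z) (finite_chainSupNE S)
          (fun z hz => (hr z hz).1) hm ?_ ?_, ?_, hT3⟩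
        · intro z _
          by_cases h : z = x
          · simp only [if_pos h]
            rw [h]
            exact hxy.le
          · simp only [if_neg h]
            exact le_rfl
        · rw [him]
          exact hT1
        · intro h
          exact hT2 (cf_retract _ sdiff_subset hr hm hid h)
    · refine ⟨S, CollapsesTo.refl S, id, ?_⟩
      intro x hx h
      exact hex ⟨x, hx, h⟩

theorem cfpp_sub {X : Type*} [PartialOrder X] {T : Set X} (h : CF T) : CFPP T := by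
  classical
  intro f hf
  have h1 := h (fun x => if hx : x ∈ T then (f ⟨x, hx⟩ : X) else x) ?_ ?_
  · obtain ⟨⟨w, hw, hwf⟩, h2⟩ := h1
    have hfix : ∀ x, ∀ hx : x ∈ T, (if hx : x ∈ T then (f ⟨x, hx⟩ : X) else x) = x →
        f ⟨x, hx⟩ = ⟨x, hx⟩ := by
      intro x hx he
      rw [dif_pos hx] at he
      exact Subtype.ext he
    refine ⟨⟨⟨w, hw⟩, hfix w hw hwf⟩, ?_⟩
    intro x hx y hy
    have hx' : f x = x := hx
    have hy' : f y = y := hy
    have h3 := h2 x ⟨x.2, by rw [dif_pos x.2]; exact congrArg Subtype.val hx'⟩ y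
      ⟨y.2, by rw [dif_pos y.2]; exact congrArg Subtype.val hy'⟩
    have h4 : ∀ z : X, Relation.ReflTransGen (fun a b =>
        a ∈ {x | x ∈ T ∧ (if hx : x ∈ T then (f ⟨x, hx⟩ : X) else x) = x} ∧
        b ∈ {x | x ∈ T ∧ (if hx : x ∈ T then (f ⟨x, hx⟩ : X) else x) = x} ∧
        (a ≤ b ∨ b ≤ a)) (x : X) z → ∀ hz : z ∈ T,
        Relation.ReflTransGen (fun a b : T => a ∈ {x : T | f x = x} ∧ b ∈ {x : T | f x = x} ∧
          (a ≤ b ∨ b ≤ a)) x ⟨z, hz⟩ := by
      intro z hz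
      induction hz with
      | refl => exact fun _ => Relation.ReflTransGen.refl
      | tail _ hs ih =>
        intro hz
        obtain ⟨⟨h5, h6⟩, ⟨h7, h8⟩, h9⟩ := hs
        exact (ih h5).tail ⟨hfix _ h5 h6, hfix _ h7 h8, h9⟩
    exact h4 y h3 y.2
  · intro x hx
    simp only [dif_pos hx]
    exact (f ⟨x, hx⟩).2
  · intro a ha b hb hab
    simp only [dif_pos ha, dif_pos hb]
    exact hf (a := ⟨a, ha⟩) (b := ⟨b, hb⟩) hab

theorem cfpp_swap {X Y : Type*} [PartialOrder X] [PartialOrder Y] (h : CFPP (X × Y)) :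
    CFPP (Y × X) := by
  intro F hF
  have h1 := h (fun z => (F z.swap).swap)
    (fun a b hab => Prod.swap_le_swap.2 (hF (Prod.swap_le_swap.2 hab)))
  refine conn_of _ _ (fun z : X × Y => z.swap) h1 ?_ ?_ ?_
  · intro z hz
    have hz' : (F z.swap).swap = z := hz
    have h2 := congrArg Prod.swap hz'
    rw [Prod.swap_swap] at h2
    exact h2
  · intro z _ w _ hzw
    exact Prod.swap_le_swap.2 hzw
  · intro z hz
    have hz' : F z = z := hz
    refine ⟨z.swap, ?_, ?_⟩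
    · show (F z.swap.swap).swap = z.swap
      rw [Prod.swap_swap, hz']
    · simp

theorem finite_reduction
    (hyp : ∀ (P Q : Type u) [PartialOrder P] [PartialOrder Q] [Finite P] [Finite Q],
      (∀ x : P, ¬ Irred x) → (∀ x : Q, ¬ Irred x) → CFPP P → CFPP Q → CFPP (P × Q))
    (P Q : Type u) [PartialOrder P] [PartialOrder Q] [Finite P] [Finite Q]
    (hP : CFPP P) (hQ : CFPP Q) : CFPP (P × Q) := by
  obtain ⟨T, hT1, hT2, hT3⟩ := exists_core (X := P) _ univ rfl
  obtain ⟨W, hW1, hW2, hW3⟩ := exists_core (X := Q) _ univ rfl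
  have hT : CFPP T := cfpp_sub (hT2 (cfpp_iff.1 hP))
  have hW : CFPP W := cfpp_sub (hW2 (cfpp_iff.1 hQ))
  have tr : ∀ {X : Type u} [PartialOrder X] (S : Set X), (∀ x ∈ S, ¬ IrredIn S x) →
      ∀ x : S, ¬ Irred x := by
    intro X _ S h x hx
    apply h x x.2
    rcases hx with ⟨y, h1, h2⟩ | ⟨y, h1, h2⟩
    · exact Or.inl ⟨y, y.2, h1, fun z hz hz2 => h2 ⟨z, hz⟩ hz2⟩
    · exact Or.inr ⟨y, y.2, h1, fun z hz hz2 => h2 ⟨z, hz⟩ hz2⟩
  have h0 : CFPP (T × W) := hyp T W (tr T hT3) (tr W hW3) hT hW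
  have h1 : CFPP (T × Q) := main T Q W hT hW1 (Or.inr (Or.inr h0))
  have h2 : CFPP (Q × P) := main Q P T hQ hT1 (Or.inr (Or.inr (cfpp_swap h1)))
  exact cfpp_swap h2

theorem result (P : Type u) (Q : Type v) [PartialOrder P] [PartialOrder Q] (T : Set Q)
    (hP : CFPP P) (hQ : CollapsesTo (univ : Set Q) T)
    (hT : ChainSup T ∨ ChainInf T ∨ CFPP (P × T)) : CFPP (P × Q) :=
  main P Q T hP hQ hT

end Pool.Agent.Results.MP_6152be_co.MixedProducts
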